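import Pool.Agent.Helper80.HD.GoalsB

/-!
# Project HD (MP_6af536_nt), packet TOR1
-/

set_option autoImplicit false

open Filter Topology MeasureTheory

noncomputable section

namespace Pool.Agent.Helper94.HD

open Pool.Agent.Helper80.HD

/-- the Mahler measure is at most the maximum on the unit circle -/
theorem mahler_le (f : Polynomial ℂ) (B : ℝ) (hB : 0 < B)
    (h : ∀ z : ℂ, ‖z‖ = 1 → ‖f.eval z‖ ≤ B) : f.mahlerMeasure ≤ B := by
  have hB' : ((B⁻¹ : ℝ) : ℂ) ≠ 0 := by
    rw [Ne, Complex.ofReal_eq_zero]; exact inv_ne_zero hB.ne'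
  by_cases hf : f = 0
  · rw [hf, Polynomial.mahlerMeasure_zero]; exact hB.le
  set g : Polynomial ℂ := Polynomial.C ((B⁻¹ : ℝ) : ℂ) * f with hg
  have hg0 : g ≠ 0 := mul_ne_zero (by simpa using hB.ne') hf
  have hn : ‖((B⁻¹ : ℝ) : ℂ)‖ = B⁻¹ := by
    rw [Complex.norm_real, Real.norm_of_nonneg (inv_nonneg.mpr hB.le)]
  have h1 : g.mahlerMeasure = B⁻¹ * f.mahlerMeasure := by
    rw [hg, Polynomial.mahlerMeasure_mul, Polynomial.mahlerMeasure_const, hn]
  have h2 : g.logMahlerMeasure ≤ 0 := by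
    rw [Polynomial.logMahlerMeasure_def]
    apply Real.circleAverage_mono_on_of_le_circle
    · exact (analyticOnNhd_id.aeval_polynomial g).meromorphicOn.circleIntegrable_log_norm
    · intro z hz
      apply Real.log_nonpos (norm_nonneg _)
      have hz1 : ‖z‖ = 1 := by simpa using hz
      rw [hg, Polynomial.eval_mul, Polynomial.eval_C, norm_mul, hn]
      calc B⁻¹ * ‖f.eval z‖ ≤ B⁻¹ * B := by
            apply mul_le_mul_of_nonneg_left (h z hz1) (inv_nonneg.mpr hB.le)
        _ = 1 := inv_mul_cancel₀ hB.ne'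
  have h3 : g.mahlerMeasure ≤ 1 := by
    rw [Polynomial.mahlerMeasure, if_pos hg0]
    exact Real.exp_le_one_iff.mpr h2
  rw [h1] at h3
  calc f.mahlerMeasure = B * (B⁻¹ * f.mahlerMeasure) := by
        rw [← mul_assoc, mul_inv_cancel₀ hB.ne', one_mul]
    _ ≤ B * 1 := mul_le_mul_of_nonneg_left h3 hB.le
    _ = B := mul_one B

theorem supNorm_le (f : Polynomial ℂ) : f.supNorm ≤ 2 ^ f.natDegree * f.mahlerMeasure := by
  refine (Polynomial.supNorm_le_choose_natDegree_div_two_mul_mahlerMeasure f).trans ?_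
  apply mul_le_mul_of_nonneg_right _ (Polynomial.mahlerMeasure_nonneg f)
  exact_mod_cast Nat.choose_le_two_pow _ _

theorem tor1 : S_TOR1 := by
  intro ι _ R hR Z hZ
  set f : Polynomial ℂ := ∏ i, R i with hf
  have hf0 : f ≠ 0 := Finset.prod_ne_zero_iff.mpr fun i _ => hR i
  have hev : ∀ z : ℂ, ∏ i, ‖(R i).eval z‖ = ‖f.eval z‖ := by
    intro z
    rw [hf, Polynomial.eval_prod, norm_prod]
  have hcont : Continuous fun z : ℂ => ‖f.eval z‖ := (Polynomial.continuous f).norm
  obtain ⟨z₀, hz₀, hmax⟩ := (isCompact_sphere (0 : ℂ) 1).exists_isMaxOn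
    ⟨1, by simp⟩ hcont.continuousOn
  have hmax' : ∀ z : ℂ, ‖z‖ = 1 → ‖f.eval z‖ ≤ ‖f.eval z₀‖ := fun z hz => hmax (by simpa using hz)
  have hz1 : ‖z₀‖ = 1 := by simpa using hz₀
  have hB : 0 < ‖f.eval z₀‖ := by
    by_contra hc
    have hc0 : ‖f.eval z₀‖ = 0 := le_antisymm (not_lt.mp hc) (norm_nonneg _)
    have hall : ∀ z : ℂ, ‖z‖ = 1 → f.eval z = 0 := by
      intro z hz
      have := hmax' z hz
      rw [hc0] at this
      exact norm_le_zero_iff.mp this
    apply hf0
    apply Polynomial.eq_zero_of_infinite_isRoot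
    refine Set.Infinite.mono (s := Set.range fun t : Set.Ioo (0 : ℝ) 1 => circleMap 0 1 (t : ℝ)) ?_ ?_
    · rintro _ ⟨t, rfl⟩
      apply hall
      simp
    · have hinj : Function.Injective fun t : Set.Ioo (0 : ℝ) 1 => circleMap 0 1 (t : ℝ) := by
        intro s t hst
        apply Subtype.ext
        exact injOn_circleMap_of_abs_sub_le one_ne_zero (a := 0) (b := 1)
          (by rw [zero_sub, abs_neg, abs_one]; linarith [Real.pi_gt_three])
          (by rw [Set.uIoc_of_le zero_le_one]; exact ⟨s.2.1, s.2.2.le⟩)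
          (by rw [Set.uIoc_of_le zero_le_one]; exact ⟨t.2.1, t.2.2.le⟩) hst
      haveI : Infinite (Set.Ioo (0 : ℝ) 1) := Set.infinite_coe_iff.mpr (Set.Ioo_infinite one_pos)
      exact Set.infinite_range_of_injective hinj
  have hM : ∏ i, (R i).supNorm ≤ 2 ^ (∑ i, (R i).natDegree) * ‖f.eval z₀‖ := by
    calc ∏ i, (R i).supNorm ≤ ∏ i, (2 ^ (R i).natDegree * (R i).mahlerMeasure) := by
          apply Finset.prod_le_prod
          · intro i _; exact Polynomial.supNorm_nonneg _
          · intro i _; exact supNorm_le _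
      _ = 2 ^ (∑ i, (R i).natDegree) * ∏ i, (R i).mahlerMeasure := by
          rw [Finset.prod_mul_distrib, Finset.prod_pow_eq_pow_sum]
      _ = 2 ^ (∑ i, (R i).natDegree) * f.mahlerMeasure := by
          have : f.mahlerMeasure = ∏ i, (R i).mahlerMeasure := by
            rw [hf, Finset.prod, Polynomial.prod_mahlerMeasure_eq_mahlerMeasure_prod, Multiset.map_map]
            rfl
          rw [this]
      _ ≤ 2 ^ (∑ i, (R i).natDegree) * ‖f.eval z₀‖ :=
          mul_le_mul_of_nonneg_left (mahler_le f _ hB hmax') (by positivity)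
  -- the arc
  have hz0r : ∃ t₀ : ℝ, circleMap 0 1 t₀ = z₀ := by
    have : z₀ ∈ Set.range (circleMap (0 : ℂ) 1) := by
      rw [range_circleMap]
      simpa using hz1
    exact this
  obtain ⟨t₀, ht₀⟩ := hz0r
  set W : Set ℝ := {t | ‖f.eval z₀‖ / 2 < ‖f.eval (circleMap 0 1 t)‖} ∩ Set.Ioo (t₀ - 1) (t₀ + 1) with hW
  have hWo : IsOpen W := by
    apply IsOpen.inter _ isOpen_Ioo
    exact isOpen_lt continuous_const (hcont.comp (continuous_circleMap 0 1))
  have hWn : W.Nonempty := by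
    refine ⟨t₀, ?_, by constructor <;> linarith⟩
    show ‖f.eval z₀‖ / 2 < ‖f.eval (circleMap 0 1 t₀)‖
    rw [ht₀]; linarith
  have hWc : ¬ W.Countable := by
    intro hc
    have h1 := hWo.measure_pos volume hWn
    rw [hc.measure_zero] at h1
    exact lt_irrefl _ h1
  have hinj : Set.InjOn (circleMap (0 : ℂ) 1) W := by
    apply (injOn_circleMap_of_abs_sub_le one_ne_zero (a := t₀ - 1) (b := t₀ + 1) (by
      rw [show t₀ - 1 - (t₀ + 1) = -2 by ring, abs_neg, abs_two]; linarith [Real.pi_gt_three])).mono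
    intro t ht
    rw [Set.uIoc_of_le (by linarith)]
    exact ⟨ht.2.1, ht.2.2.le⟩
  have hex : ∃ t ∈ W, circleMap 0 1 t ∉ Z := by
    by_contra hc
    push Not at hc
    apply hWc
    apply Set.countable_of_injective_of_countable_image hinj
    apply hZ.mono
    rintro _ ⟨t, ht, rfl⟩
    exact hc t ht
  obtain ⟨t, htW, htZ⟩ := hex
  refine ⟨circleMap 0 1 t, by simp, htZ, ?_⟩
  rw [hev]
  refine hM.trans ?_
  have h1 : ‖f.eval z₀‖ ≤ 2 * ‖f.eval (circleMap 0 1 t)‖ := by
    have := htW.1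
    simp only [Set.mem_setOf_eq] at this
    linarith
  calc (2 : ℝ) ^ (∑ i, (R i).natDegree) * ‖f.eval z₀‖
      ≤ 2 ^ (∑ i, (R i).natDegree) * (2 * ‖f.eval (circleMap 0 1 t)‖) :=
        mul_le_mul_of_nonneg_left h1 (by positivity)
    _ = 2 ^ (1 + ∑ i, (R i).natDegree) * ‖f.eval (circleMap 0 1 t)‖ := by
        rw [pow_add, pow_one]; ring

end Pool.Agent.Helper94.HD
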